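import Pool.Agent.H70.RK.T2

/-! Row GTL: gates. -/

set_option autoImplicit false

namespace Pool.Agent.H66.RK

open Finset Filter Pool.Agent.H6.NB Pool.Agent.H70.OQ Pool.Agent.H78.XQ Pool.Agent.H70.RK

theorem gbs_gmap : ∀ (m : ℕ) (T T' : Type) (f : T → T') (G : Gt T m),
    gbs m (gmap f m G) = (gbs m G).map f := by
  intro m
  induction m with
  | zero => intro T T' f G; rfl
  | succ m ih =>
    intro T T' f G
    change (gbs (T := List T') m (gmap (List.map f) m G)).flatten =
      ((gbs (T := List T) m G).flatten).map f
    rw [ih, List.map_flatten]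

theorem gsz_gmap : ∀ (m : ℕ) (T T' : Type) (f : T → T') (s : ℕ) (G : Gt T m),
    gsz s m (gmap f m G) ↔ gsz s m G := by
  intro m
  induction m with
  | zero => intro T T' f s G; exact Iff.rfl
  | succ m ih =>
    intro T T' f s G
    change (gsz (T := List T') s m (gmap (List.map f) m G) ∧
      ∀ L ∈ gbs (T := List T') m (gmap (List.map f) m G), L.length ≤ s) ↔
      (gsz (T := List T) s m G ∧ ∀ L ∈ gbs (T := List T) m G, L.length ≤ s)
    rw [ih, gbs_gmap]
    simp

theorem gbs_len : ∀ (m : ℕ) (T : Type) (s : ℕ) (G : Gt T m), gsz s m G →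
    (gbs m G).length ≤ s ^ m := by
  intro m
  induction m with
  | zero => intro T s G _; simp [gbs]
  | succ m ih =>
    intro T s G h
    obtain ⟨h1, h2⟩ : gsz (T := List T) s m G ∧ ∀ L ∈ gbs (T := List T) m G, L.length ≤ s := h
    change ((gbs (T := List T) m G).flatten).length ≤ s ^ (m + 1)
    rw [List.length_flatten]
    have h3 : ((gbs (T := List T) m G).map List.length).sum ≤
        ((gbs (T := List T) m G).map List.length).length • s := by
      refine List.sum_le_card_nsmul _ _ ?_
      intro x hx
      obtain ⟨L, hL, rfl⟩ := List.mem_map.1 hx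
      exact h2 L hL
    refine h3.trans ?_
    rw [List.length_map, smul_eq_mul, pow_succ]
    exact Nat.mul_le_mul_right _ (ih (List T) s G h1)

theorem gval_gmap : ∀ (m : ℕ) (T T' : Type) (f : T → T') (v : T' → Bool) (G : Gt T m),
    gval v m (gmap f m G) = gval (fun x => v (f x)) m G := by
  intro m
  induction m with
  | zero => intro T T' f v G; rfl
  | succ m ih =>
    intro T T' f v G
    change gval (fun L : List T' => L.any fun t => !v t) m (gmap (List.map f) m G) =
      gval (fun L : List T => L.any fun t => !v (f t)) m G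
    rw [ih]
    have : (fun x : List T => (List.map f x).any fun t => !v t) =
        fun L : List T => L.any fun t => !v (f t) := by
      funext L
      rw [List.any_map]
      rfl
    rw [this]

theorem gval_congr : ∀ (m : ℕ) (T : Type) (v v' : T → Bool) (G : Gt T m),
    (∀ x ∈ gbs m G, v x = v' x) → gval v m G = gval v' m G := by
  intro m
  induction m with
  | zero =>
    intro T v v' G h
    exact h G (List.mem_singleton.2 rfl)
  | succ m ih =>
    intro T v v' G h
    change gval (fun L : List T => L.any fun t => !v t) m G =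
      gval (fun L : List T => L.any fun t => !v' t) m G
    apply ih
    intro L hL
    have h2 : ∀ t ∈ L, v t = v' t := fun t ht => h t (List.mem_flatten.2 ⟨L, hL, ht⟩)
    rw [Bool.eq_iff_iff, List.any_eq_true, List.any_eq_true]
    constructor
    · rintro ⟨t, ht, h3⟩
      exact ⟨t, ht, by rw [← h2 t ht]; exact h3⟩
    · rintro ⟨t, ht, h3⟩
      exact ⟨t, ht, by rw [h2 t ht]; exact h3⟩

theorem gmap_congr : ∀ (m : ℕ) (T T' : Type) (f f' : T → T') (G : Gt T m),
    (∀ x ∈ gbs m G, f x = f' x) → gmap f m G = gmap f' m G := by
  intro m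
  induction m with
  | zero =>
    intro T T' f f' G h
    exact h G (List.mem_singleton.2 rfl)
  | succ m ih =>
    intro T T' f f' G h
    change gmap (List.map f) m G = gmap (List.map f') m G
    apply ih
    intro L hL
    exact List.map_congr_left fun t ht => h t (List.mem_flatten.2 ⟨L, hL, ht⟩)

theorem gmap_gmap : ∀ (m : ℕ) (T T' T'' : Type) (f : T → T') (f' : T' → T'') (G : Gt T m),
    gmap f' m (gmap f m G) = gmap (fun x => f' (f x)) m G := by
  intro m
  induction m with
  | zero => intro T T' T'' f f' G; rfl
  | succ m ih =>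
    intro T T' T'' f f' G
    change gmap (List.map f') m (gmap (List.map f) m G) = gmap (List.map fun x => f' (f x)) m G
    rw [ih]
    have : (fun x : List T => List.map f' (List.map f x)) = List.map fun x => f' (f x) := by
      funext L
      rw [List.map_map]
      rfl
    rw [this]

theorem pf_GTL : T_GTL :=
  ⟨fun T T' f m G => gbs_gmap m T T' f G, fun T T' f s m G => gsz_gmap m T T' f s G,
    fun T s m G => gbs_len m T s G, fun T T' f v m G => gval_gmap m T T' f v G,
    fun T v v' m G => gval_congr m T v v' G, fun T T' f f' m G => gmap_congr m T T' f f' G,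
    fun T T' T'' f f' m G => gmap_gmap m T T' T'' f f' G⟩

end Pool.Agent.H66.RK
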