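import Pool.Agent.H66.RK.RDT

/-! Row EVO: for good seeds the oracle is in P^(Sigma_k). -/

set_option autoImplicit false

namespace Pool.Agent.H66.RK

open Finset Filter Pool.Agent.H6.NB Pool.Agent.H70.OQ Pool.Agent.H78.XQ Pool.Agent.H70.RK
open Pool.Agent.H70.RC (Term DNF pv fv psat run Bad Arry Right RightP sec)

theorem gsz_mono : ∀ (m : ℕ) (T : Type) (s s' : ℕ) (G : Gt T m), s ≤ s' → gsz s m G →
    gsz s' m G := by
  intro m
  induction m with
  | zero => intro T s s' G _ _; trivial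
  | succ m ih =>
    intro T s s' G hs h
    obtain ⟨h1, h2⟩ : gsz (T := List T) s m G ∧ ∀ L ∈ gbs (T := List T) m G, L.length ≤ s := h
    exact ⟨ih (List T) s s' G hs h1, fun L hL => (h2 L hL).trans hs⟩

theorem adp_var (hADM : T_ADM) {V : Type} (t j c : ℕ) (ht : 1 ≤ t) (hc : 1 ≤ c) (v : V) :
    Adp (Qst V t j) c (fun X : V → Bool => X v) := by
  have h1 : Adp (Qst V t 0) 1 (fun X : V → Bool => X v) :=
    Adp.ask 0 (fun X => X v) _ (fun _ => false) (fun _ => true) ⟨v, fun _ => rfl⟩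
      (Adp.pure _ _) (Adp.pure _ _) (fun X hX => hX) (fun X hX => hX)
  exact hADM V Bool t t 0 j 1 c _ le_rfl (Nat.zero_le _) hc ht h1

theorem evo_bounds (c k C n N : ℕ) (hn : 4 ≤ n) (hN : N = n ^ (c + 1) + c + 1) :
    (8 * N) ^ (k + 1) ≤ n ^ ((c + 4) * ((2 * k + 3) * (C + 1))) ∧
    ((N ^ k * N + 1) * (2 * (8 * N) ^ (k + 1) + 1)) ^ (C + 1) ≤
      n ^ ((c + 4) * ((2 * k + 3) * (C + 1))) := by
  have h1 : c + 1 < 2 ^ (c + 1) := Nat.lt_two_pow_self
  have h2 : 2 ^ (c + 1) ≤ n ^ (c + 1) := Nat.pow_le_pow_left (by omega) _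
  have h3 : N ≤ 2 * n ^ (c + 1) := by omega
  have h4 : N ≤ n ^ (c + 2) := by
    rw [pow_succ n (c + 1)]
    nlinarith
  have h5 : 8 * N ≤ n ^ (c + 4) := by
    have : n ^ (c + 4) = n ^ (c + 2) * (n * n) := by ring
    rw [this]
    have h6 : 8 ≤ n * n := by nlinarith
    nlinarith
  have hN1 : 1 ≤ N := by omega
  have h8 : 1 ≤ 8 * N := by omega
  have hmain : (8 * N) ^ ((2 * k + 3) * (C + 1)) ≤ n ^ ((c + 4) * ((2 * k + 3) * (C + 1))) := by
    rw [pow_mul n]
    exact Nat.pow_le_pow_left h5 _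
  constructor
  · refine le_trans (Nat.pow_le_pow_right h8 ?_) hmain
    nlinarith
  · refine le_trans ?_ hmain
    rw [pow_mul]
    refine Nat.pow_le_pow_left ?_ _
    have e1 : N ^ k * N + 1 ≤ (8 * N) ^ (k + 1) := by
      rw [← pow_succ, mul_pow]
      have a1 : 1 ≤ N ^ (k + 1) := Nat.one_le_pow _ _ hN1
      have a2 : 8 ^ 1 ≤ 8 ^ (k + 1) := Nat.pow_le_pow_right (by norm_num) (by omega)
      nlinarith
    have e2 : 1 ≤ (8 * N) ^ (k + 1) := Nat.one_le_pow _ _ h8
    have e3 : 2 * (8 * N) ^ (k + 1) + 1 ≤ (8 * N) ^ (k + 1) * (8 * N) := by nlinarith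
    have e4 : (8 * N) ^ (2 * k + 3) = (8 * N) ^ (k + 1) * ((8 * N) ^ (k + 1) * (8 * N)) := by ring
    rw [e4]
    exact Nat.mul_le_mul e1 e3

theorem pf_EVO (hRDT : T_RDT) (hRDW : T_RDW) (hVLK : T_VLK) (hCVF : T_CVF) (hORL : T_ORL)
    (hLIT : T_LIT) (hLVL : Pool.Agent.H70.RC.T_LVL) (hADM : T_ADM) (hSTR : T_STR) : T_EVO := by
  classical
  intro k V G t hk hG c
  obtain ⟨C₀, hC₀⟩ := hLVL c
  refine ⟨(c + 4) * ((2 * k + 3) * (C₀ + 1)), fun n N hn hN D σ => ?_⟩
  obtain ⟨lv, hlv1, hlv2⟩ := hC₀ n N hn hN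
  obtain ⟨hb1, hb2⟩ := evo_bounds c k C₀ n N hn hN
  set C := (c + 4) * ((2 * k + 3) * (C₀ + 1)) with hC
  have hN1 : 1 ≤ N := by omega
  have hnN : n ≤ N := by
    have : n ≤ n ^ (c + 1) := Nat.le_self_pow (by omega) n
    omega
  have ht : ∀ s : Li n N, t s.1 + 1 ≤ N := by
    intro s
    have h1 := hG.sq s.1
    have h2 := s.2.2
    nlinarith
  have ht8 : 1 ≤ (8 * N) ^ (k + 1) := Nat.one_le_pow _ _ (by omega)
  obtain ⟨hinj, hLt, -⟩ := hLIT k V n N D σ.2.1 σ.2.2 hk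
  set U : List Bool → Prop := fun w => ∃ x : Ce (Li n N) (fun s => Ck s.1) k, pa x = w with hU
  set bv : ((Fin n → Bool) → Bool) → List Bool → Bool := fun X => lbv V D X σ.2.1 σ.2.2 with hbv
  set T : Li n N → ((Fin n → Bool) → Bool) → TR (List Bool) := fun s X =>
    red (bv X) N k N pa σ.1 (gs V G D X σ.2.1 σ.2.2 s.1) with hTdef
  -- the trees are computable
  have hWC : ∀ s, WC ((8 * N) ^ (k + 1)) k ((8 * N) ^ (k + 1)) (T s) := by
    intro s
    have h := hRDW (Fin n → Bool) (Li n N) (List Bool) (fun s => Ck s.1) N 0 k 0 ((8 * N) ^ (k + 1))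
      N N N N bv pa σ.1
      (gmap (fun (T : DT) (X : (Fin n → Bool) → Bool) => cv U (bv X) [] T) k (G s.1))
      (by omega) le_rfl le_rfl (by simp) (by
        rw [zero_add, pow_one]
        omega) (by rw [zero_add]) hLt ?_ ?_
    · rw [zero_add] at h
      have e : (fun y => red (bv y) N k N pa σ.1 (gmap (fun τ => τ y) k
          (gmap (fun (T : DT) (X : (Fin n → Bool) → Bool) => cv U (bv X) [] T) k (G s.1)))) =
          T s := by
        funext y
        rw [gmap_gmap]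
        rfl
      rw [e] at h
      exact h
    · rw [gsz_gmap]
      exact gsz_mono _ _ _ _ _ (Nat.pow_le_pow_right (by norm_num) (ht s)) (hG.len s.1)
    · intro τ hτ
      rw [gbs_gmap] at hτ
      obtain ⟨T', hT', rfl⟩ := List.mem_map.1 hτ
      have h2 := (hCVF U (t s.1) T' (hG.ql s.1 T' hT')).2 (Fin n → Bool) ((8 * N) ^ (k + 1)) bv hLt
      intro π
      refine hADM _ _ _ _ _ _ _ _ _ le_rfl le_rfl ?_ ht8 (h2 π)
      have := hG.dp s.1 T' hT'
      have := ht s
      omega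
  obtain ⟨Gv, hGv1, hGv2⟩ := hVLK (Fin n → Bool) (List Bool) (Li n N) ((8 * N) ^ (k + 1)) k
    ((8 * N) ^ (k + 1)) (N ^ k * N) (fun s => pa ⟨s, adr k σ.1 s⟩) T lv (by
      intro s s' h
      have := hinj h
      simp only [Sigma.mk.inj_iff] at this
      exact this.1) hWC
  have hn1 : 1 ≤ n ^ C + C := by
    have : 1 ≤ n ^ C := Nat.one_le_pow _ _ (by omega)
    omega
  refine ⟨fun w => if N < w.length then fun _ => false else
    if h : ∃ s : Li n N, pa ⟨s, adr k σ.1 s⟩ = w then Gv h.choose else fun X => bv X w, ?_, ?_⟩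
  · intro w
    beta_reduce
    split_ifs with hw h
    · exact Adp.pure _ _
    · refine hADM _ _ _ _ _ _ _ _ _ (hb1.trans (Nat.le_add_right _ _)) le_rfl ?_ hn1
        (hGv1 h.choose)
      refine le_trans ?_ (hb2.trans (Nat.le_add_right _ _))
      refine Nat.pow_le_pow_right ?_ (Nat.succ_le_succ (hlv2 _))
      exact Nat.mul_pos (by omega) (by omega)
    · rcases hLt w with ⟨b, hb⟩ | ⟨v, hv⟩
      · have : (fun X => bv X w) = fun _ => b := funext hb
        rw [this]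
        exact Adp.pure _ _
      · have : (fun X => bv X w) = fun X => X v := funext hv
        rw [this]
        exact adp_var hADM _ _ _ hn1 hn1 v
  · intro X hX w hw
    obtain ⟨ho1, ho2, ho3⟩ := hORL k V n N D X (adr k σ.1) σ.2.1 σ.2.2 hk hnN
    set O := orc V (ins n N D X σ) with hO
    have hkey : ∀ s, O (pa ⟨s, adr k σ.1 s⟩) = Gv s X := by
      apply hGv2 X O
      intro s
      have hgood := hX s
      have hgate : ∀ T' ∈ gbs k (gs V G D X σ.2.1 σ.2.2 s.1), T'.depth ≤ N ∧ T'.Nd ∧ T'.Tot ∧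
          T'.On fun w => (∃ x : Ce (Li n N) (fun s => Ck s.1) k, pa x = w) ∧ w.length ≤ t s.1 := by
        intro T' hT'
        unfold gs at hT'
        rw [gbs_gmap] at hT'
        obtain ⟨T₀, hT₀, rfl⟩ := List.mem_map.1 hT'
        obtain ⟨c1, c2, c3, c4, -, -⟩ :=
          (hCVF U (t s.1) T₀ (hG.ql s.1 T₀ hT₀)).1 (bv X)
        have h3 := hG.dp s.1 T₀ hT₀
        have h4 := ht s
        exact ⟨c1.trans (by omega), c2, c3, c4⟩
      obtain ⟨r1, -, r3, r4⟩ := hRDT (Li n N) (List Bool) (fun s => Ck s.1) k N N (bv X) pa σ.1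
        (gs V G D X σ.2.1 σ.2.2 s.1) (fun w => w.length ≤ t s.1) hinj hgate hgood
      refine ⟨r1, ?_, ?_⟩
      · refine on_mono ?_ _ r3
        rintro w ⟨⟨s', rfl⟩, hlen⟩
        refine ⟨s', rfl, hlv1 s s' ?_⟩
        have h5 := (hSTR k hk).2.2.1 s'.1 (adr k σ.1 s')
        have h6 : (Pool.Agent.H70.RC.arrp s'.1 (flat (adr k σ.1 s'))).length ≤ t s.1 := hlen
        have h7 := hG.sq s.1
        have h8 : s'.1.length + 1 ≤ t s.1 := by omega
        nlinarith
      · have h9 := r4 O ho2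
        change O (pa ⟨s, adr k σ.1 s⟩) = true ↔
          (red (bv X) N k N pa σ.1 (gs V G D X σ.2.1 σ.2.2 s.1)).eval O = some true
        rw [h9]
        have h10 : gval (vt O) k (gs V G D X σ.2.1 σ.2.2 s.1) =
            gval (fun T' : DT => T'.eval O) k (G s.1) := by
          unfold gs
          rw [gval_gmap]
          refine gval_congr _ _ _ _ _ fun T₀ hT₀ => ?_
          obtain ⟨-, -, -, -, c5, -⟩ := (hCVF U (t s.1) T₀ (hG.ql s.1 T₀ hT₀)).1 (bv X)
          have h11 := c5 O fun w hwl hwU => ho1 w (by have := ht s; omega) hwU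
          unfold vt
          change decide ((cv U (bv X) [] T₀).eval O = some true) = T₀.eval O
          rw [h11]
          cases T₀.eval O <;> simp
        rw [h10]
        have h12 : O (pa ⟨s, adr k σ.1 s⟩) = true ↔ ans V O s.1 := ho3 s
        rw [h12, hG.ans s.1 O]
        simp
    beta_reduce
    rw [if_neg (not_lt.2 hw)]
    by_cases h : ∃ s : Li n N, pa ⟨s, adr k σ.1 s⟩ = w
    · rw [dif_pos h, ← hkey h.choose, h.choose_spec]
    · rw [dif_neg h]
      by_cases hx : ∃ x : Ce (Li n N) (fun s => Ck s.1) k, pa x = w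
      · obtain ⟨x, rfl⟩ := hx
        exact ho2 x fun s hs => h ⟨s, hs.symm⟩
      · exact ho1 w hw hx

end Pool.Agent.H66.RK
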