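import Pool.Agent.H70.RK.T2

/-! Row DNS: the disjunctive normal form of a list of trees. -/

set_option autoImplicit false

namespace Pool.Agent.H66.RK

open Finset Filter Pool.Agent.H6.NB Pool.Agent.H70.OQ Pool.Agent.H78.XQ Pool.Agent.H70.RK
open Pool.Agent.H70.RC (Term DNF pv fv psat run Bad Arry Right RightP sec)

theorem bl_len (D : ℕ) : (bl D).length < 2 ^ (D + 1) := by
  induction D with
  | zero => simp [bl]
  | succ D ih =>
    have h1 : (bl (D + 1)).length = 2 * (bl D).length + 1 := by
      change ([] :: (bl D).flatMap fun π => [false :: π, true :: π]).length = _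
      rw [List.length_cons, List.length_flatMap]
      simp [Nat.mul_comm]
    rw [h1, pow_succ]
    omega

theorem mem_bl : ∀ (D : ℕ) (π : List Bool), π ∈ bl D ↔ π.length ≤ D := by
  intro D
  induction D with
  | zero =>
    intro π
    change π ∈ [[]] ↔ _
    rw [List.mem_singleton]
    constructor
    · rintro rfl; simp
    · intro h
      exact List.length_eq_zero_iff.1 (Nat.le_zero.1 h)
  | succ D ih =>
    intro π
    change π ∈ [] :: (bl D).flatMap (fun π => [false :: π, true :: π]) ↔ _
    rw [List.mem_cons, List.mem_flatMap]
    constructor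
    · rintro (rfl | ⟨π', h1, h2⟩)
      · simp
      · have h3 := (ih π').1 h1
        rw [List.mem_cons, List.mem_singleton] at h2
        rcases h2 with rfl | rfl <;> simpa using h3
    · intro h
      cases π with
      | nil => exact Or.inl rfl
      | cons b π' =>
        right
        refine ⟨π', (ih π').2 (by simpa using h), ?_⟩
        cases b <;> simp

variable {W : Type}

theorem walk_len (T : TR W) : ∀ π : List Bool, (T.walk π).1.length ≤ π.length := by
  induction T with
  | leaf o =>
    intro π
    cases π <;> simp [TR.walk]
  | node w l r ihl ihr =>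
    intro π
    cases π with
    | nil => simp [TR.walk]
    | cons b π =>
      cases b
      · have := ihl π
        simp only [TR.walk, Bool.false_eq_true, if_false, List.length_cons]
        omega
      · have := ihr π
        simp only [TR.walk, if_true, List.length_cons]
        omega

theorem walk_on (U : W → Prop) (T : TR W) (h : T.On U) :
    ∀ π : List Bool, ∀ p ∈ (T.walk π).1, U p.1 := by
  induction T with
  | leaf o =>
    intro π p hp
    cases π <;> simp [TR.walk] at hp
  | node w l r ihl ihr =>
    intro π p hp
    obtain ⟨h1, h2, h3⟩ := h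
    cases π with
    | nil => simp [TR.walk] at hp
    | cons b π =>
      cases b
      · simp only [TR.walk, Bool.false_eq_true, if_false, List.mem_cons] at hp
        rcases hp with rfl | hp
        · exact h1
        · exact ihl h2 π p hp
      · simp only [TR.walk, if_true, List.mem_cons] at hp
        rcases hp with rfl | hp
        · exact h1
        · exact ihr h3 π p hp

/-- the path of an oracle -/
theorem walk_path (O : W → Bool) (T : TR W) : ∃ π : List Bool, π.length ≤ T.depth ∧
    (T.walk π).2 = some (T.eval O) ∧ Term.Sat O (T.walk π).1 := by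
  induction T with
  | leaf o => exact ⟨[], by simp, rfl, by intro p hp; simp [TR.walk] at hp⟩
  | node w l r ihl ihr =>
    cases hw : O w with
    | false =>
      obtain ⟨π, h1, h2, h3⟩ := ihl
      refine ⟨false :: π, ?_, ?_, ?_⟩
      · simp only [TR.depth, List.length_cons]
        omega
      · simp only [TR.walk, Bool.false_eq_true, if_false, TR.eval, hw]
        exact h2
      · intro p hp
        simp only [TR.walk, Bool.false_eq_true, if_false, List.mem_cons] at hp
        rcases hp with rfl | hp
        · exact hw
        · exact h3 p hp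
    | true =>
      obtain ⟨π, h1, h2, h3⟩ := ihr
      refine ⟨true :: π, ?_, ?_, ?_⟩
      · simp only [TR.depth, List.length_cons]
        omega
      · simp only [TR.walk, if_true, TR.eval, hw]
        exact h2
      · intro p hp
        simp only [TR.walk, if_true, List.mem_cons] at hp
        rcases hp with rfl | hp
        · exact hw
        · exact h3 p hp

theorem walk_eval (O : W → Bool) (T : TR W) : ∀ (π : List Bool) (o : Option Bool),
    (T.walk π).2 = some o → Term.Sat O (T.walk π).1 → T.eval O = o := by
  induction T with
  | leaf o' =>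
    intro π o h _
    cases π with
    | nil =>
      have h2 : o' = o := by simpa [TR.walk] using h
      exact h2
    | cons b π => simp [TR.walk] at h
  | node w l r ihl ihr =>
    intro π o h hs
    cases π with
    | nil => simp [TR.walk] at h
    | cons b π =>
      cases b
      · simp only [TR.walk, Bool.false_eq_true, if_false] at h hs
        have hw : O w = false := hs (w, false) List.mem_cons_self
        simp only [TR.eval, hw, Bool.false_eq_true, if_false]
        exact ihl π o h fun p hp => hs p (List.mem_cons_of_mem _ hp)
      · simp only [TR.walk, if_true] at h hs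
        have hw : O w = true := hs (w, true) List.mem_cons_self
        simp only [TR.eval, hw, if_true]
        exact ihr π o h fun p hp => hs p (List.mem_cons_of_mem _ hp)

theorem tm_some {x : Term W × Option (Option Bool)} {T : Term W} (h : tm x = some T) :
    x.2 = some (some false) ∧ x.1 = T := by
  unfold tm at h
  split at h
  · rename_i h2
    exact ⟨h2, Option.some.inj h⟩
  · exact absurd h (by simp)

theorem mem_dn {D : ℕ} {L : List (TR W)} {T : Term W} : T ∈ dn D L ↔
    ∃ T' ∈ L, ∃ π : List Bool, π.length ≤ D ∧ (T'.walk π).2 = some (some false) ∧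
      (T'.walk π).1 = T := by
  unfold dn
  rw [List.mem_flatMap]
  constructor
  · rintro ⟨T', h1, h2⟩
    rw [List.mem_filterMap] at h2
    obtain ⟨π, h3, h4⟩ := h2
    obtain ⟨h5, h6⟩ := tm_some h4
    exact ⟨T', h1, π, (mem_bl D π).1 h3, h5, h6⟩
  · rintro ⟨T', h1, π, h2, h3, h4⟩
    refine ⟨T', h1, ?_⟩
    rw [List.mem_filterMap]
    refine ⟨π, (mem_bl D π).2 h2, ?_⟩
    unfold tm
    rw [h3, h4]

theorem pf_DNS : T_DNS := by
  intro W D L
  refine ⟨bl_len D, mem_bl D, ?_, ?_, ?_, ?_⟩
  · intro T hT
    obtain ⟨T', -, π, h2, -, rfl⟩ := mem_dn.1 hT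
    exact (walk_len T' π).trans h2
  · intro hN T hT
    obtain ⟨T', h1, π, -, -, rfl⟩ := mem_dn.1 hT
    exact hN T' h1 π
  · intro U hU T hT p hp
    obtain ⟨T', h1, π, -, -, rfl⟩ := mem_dn.1 hT
    exact walk_on U T' (hU T' h1) π p hp
  · intro O hd
    constructor
    · rintro ⟨T, hT, hs⟩
      obtain ⟨T', h1, π, -, h3, rfl⟩ := mem_dn.1 hT
      exact ⟨T', h1, walk_eval O T' π _ h3 hs⟩
    · rintro ⟨T, hT, he⟩
      obtain ⟨π, h1, h2, h3⟩ := walk_path O T
      exact ⟨_, mem_dn.2 ⟨T, hT, π, h1.trans (hd T hT), by rw [h2, he], rfl⟩, h3⟩

end Pool.Agent.H66.RK
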