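import Pool.Agent.H66.RK.GTL
import Pool.Agent.H66.RK.DNS

/-! Row RDT: the reduction of a gate is correct. -/

set_option autoImplicit false

namespace Pool.Agent.H66.RK

open Finset Filter Pool.Agent.H6.NB Pool.Agent.H70.OQ Pool.Agent.H78.XQ Pool.Agent.H70.RK
open Pool.Agent.H70.RC (Term DNF pv fv psat run Bad Arry Right RightP sec)

variable {W : Type}

theorem on_mono {U U' : W → Prop} (h : ∀ w, U w → U' w) (T : TR W) (hT : T.On U) : T.On U' := by
  induction T with
  | leaf o => trivial
  | node w l r ihl ihr => exact ⟨h w hT.1, ihl hT.2.1, ihr hT.2.2⟩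

theorem on_and {U U' : W → Prop} (T : TR W) (hT : T.On U) (hT' : T.On U') :
    T.On fun w => U w ∧ U' w := by
  induction T with
  | leaf o => trivial
  | node w l r ihl ihr =>
    exact ⟨⟨hT.1, hT'.1⟩, ihl hT.2.1 hT'.2.1, ihr hT.2.2 hT'.2.2⟩

theorem eval_congr {O O' : W → Bool} (T : TR W) (hT : T.On fun w => O w = O' w) :
    T.eval O = T.eval O' := by
  induction T with
  | leaf o => rfl
  | node w l r ihl ihr =>
    simp only [TR.eval]
    rw [← hT.1, ihl hT.2.1, ihr hT.2.2]

theorem tot_eval {T : TR W} (hT : T.Tot) (O : W → Bool) : T.eval O ≠ none := by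
  intro h
  obtain ⟨π, -, h2, -⟩ := walk_path O T
  exact hT π (by rw [h2, h])

theorem tot_vt {T : TR W} (hT : T.Tot) (O : W → Bool) : T.eval O = some (vt O T) := by
  have h := tot_eval hT O
  unfold vt
  cases hT' : T.eval O with
  | none => exact absurd hT' h
  | some b => cases b <;> simp

section

variable {S : Type} [DecidableEq S]

theorem askT_on {U : W → Prop} (st : W → Option S) (F : List (S × Bool) → TR W)
    (hF : ∀ κ, (F κ).On U) (T : Term W) : (∀ p ∈ T, U p.1) → ∀ κ, (askT st T κ F).On U := by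
  induction T with
  | nil =>
    intro _ κ
    exact hF κ
  | cons p T ih =>
    intro hT κ
    have h1 := hT p List.mem_cons_self
    have h2 : ∀ p ∈ T, U p.1 := fun q hq => hT q (List.mem_cons_of_mem _ hq)
    unfold askT
    cases hs : st p.1 with
    | none => exact ih h2 κ
    | some s =>
      simp only
      cases hk : κ.lookup s with
      | some b => exact ih h2 κ
      | none => exact ⟨h1, ih h2 _, ih h2 _⟩

theorem can_on {U : W → Prop} (st : W → Option S) (bv : W → Bool) (F : DNF W)
    (hF : ∀ T ∈ F, ∀ p ∈ T, U p.1) (r : ℕ) : ∀ κ, (can st bv F r κ).On U := by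
  classical
  induction r with
  | zero => intro κ; trivial
  | succ r ih =>
    intro κ
    unfold can
    cases hf : F.find? (fun T => decide (psat (pv st bv κ) T)) with
    | none => trivial
    | some T =>
      simp only
      refine askT_on st _ ?_ T (hF T (List.mem_of_find?_eq_some hf)) κ
      intro κ'
      beta_reduce
      split_ifs
      · trivial
      · exact ih κ'

end

theorem sti_spec {X : Type} {ps : X → W} {w : W} {x : X} (h : sti ps w = some x) : ps x = w := by
  classical
  unfold sti at h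
  split_ifs at h with h1
  have h2 := h1.choose_spec
  rwa [Option.some.inj h] at h2

theorem sti_none {X : Type} {ps : X → W} {w : W} (h : sti ps w = none) (x : X) : ps x ≠ w := by
  classical
  unfold sti at h
  split_ifs at h with h1
  exact fun hx => h1 ⟨x, hx⟩

theorem sti_ne {X : Type} {ps : X → W} {w : W} (h : sti ps w ≠ none) : ∃ x, ps x = w := by
  cases hx : sti ps w with
  | none => exact absurd hx h
  | some x => exact ⟨x, sti_spec hx⟩

theorem dwn_inj {I : Type} {Ch : I → Type} {m : ℕ} {ps : Ce I Ch (m + 1) → W}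
    (hps : Function.Injective ps) (a : (x : Ce I Ch m) → Ch x.1) :
    Function.Injective (dwn ps a) := by
  rintro ⟨i, x⟩ ⟨j, y⟩ h
  have h1 := hps h
  simp only at h1
  obtain ⟨h2, h3⟩ := Sigma.mk.inj_iff.1 h1
  subst h2
  have h4 := eq_of_heq h3
  have h5 : x = y := by
    funext i'
    have := congrFun h4 i'.succ
    simpa using this
  rw [h5]

theorem sat_congr {O O' : W → Bool} {F : DNF W} (h : ∀ T ∈ F, ∀ p ∈ T, O p.1 = O' p.1) :
    DNF.Sat O F ↔ DNF.Sat O' F := by
  constructor
  · rintro ⟨T, hT, hs⟩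
    exact ⟨T, hT, fun p hp => by rw [← h T hT p hp]; exact hs p hp⟩
  · rintro ⟨T, hT, hs⟩
    exact ⟨T, hT, fun p hp => by rw [h T hT p hp]; exact hs p hp⟩

theorem rdt (hCAN : T_CAN) (hRNC : Pool.Agent.H70.RC.T_RNC) (I W : Type) (Ch : I → Type)
    (r : ℕ) (bv : W → Bool) (Y : W → Prop) : ∀ (m D : ℕ) (ps : Ce I Ch m → W)
    (h : Hn I Ch m) (G : Gt (TR W) m), Function.Injective ps →
  (∀ T ∈ gbs m G, T.depth ≤ D ∧ T.Nd ∧ T.Tot ∧ T.On fun w => (∃ x, ps x = w) ∧ Y w) →
  gd bv r m D ps h G →
  (red bv r m D ps h G).depth ≤ r ^ m * D ∧ (red bv r m D ps h G).Tot ∧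
  ((red bv r m D ps h G).On fun w => (∃ s, w = ps ⟨s, adr m h s⟩) ∧ Y w) ∧
  ∀ O : W → Bool, (∀ x, (∀ s, ps x ≠ ps ⟨s, adr m h s⟩) → O (ps x) = bv (ps x)) →
    (red bv r m D ps h G).eval O = some (gval (vt O) m G) := by
  intro m
  induction m with
  | zero =>
    intro D ps h G _ hT _
    obtain ⟨h1, -, h3, h4⟩ := hT G (List.mem_singleton.2 rfl)
    refine ⟨?_, h3, ?_, ?_⟩
    · rw [pow_zero, one_mul]
      exact h1
    · refine on_mono ?_ _ h4
      rintro w ⟨⟨⟨s, a⟩, hx⟩, hY⟩
      refine ⟨⟨s, ?_⟩, hY⟩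
      have h5 : a = adr 0 h s := by
        funext i
        exact i.elim0
      rw [← h5]
      exact hx.symm
    · intro O _
      exact tot_vt h3 O
  | succ m ih =>
    intro D ps h G hps hT hg
    classical
    have hinj := dwn_inj hps h.1
    obtain ⟨hg1, hg2⟩ : (∀ L ∈ gbs (T := List (TR W)) m G,
        ¬ Bad (sti (dwn ps h.1)) bv (dn D L) r) ∧
      gd bv r m (r * D) (dwn ps h.1) h.2
        (gmap (T := List (TR W)) (fun L => can (sti (dwn ps h.1)) bv (dn D L) r []) m G) := hg
    have hT' : ∀ L ∈ gbs (T := List (TR W)) m G, ∀ T ∈ L, T.depth ≤ D ∧ T.Nd ∧ T.Tot ∧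
        T.On fun w => (∃ x, ps x = w) ∧ Y w := fun L hL T hTL =>
      hT T (List.mem_flatten.2 ⟨L, hL, hTL⟩)
    have hsi : ∀ w w' x, sti (dwn ps h.1) w = some x → sti (dwn ps h.1) w' = some x → w = w' := by
      intro w w' x h1 h2
      rw [← sti_spec h1, sti_spec h2]
    -- the canonical trees
    have hc : ∀ L ∈ gbs (T := List (TR W)) m G,
        (can (sti (dwn ps h.1)) bv (dn D L) r []).depth ≤ r * D ∧
        (can (sti (dwn ps h.1)) bv (dn D L) r []).Nd ∧
        (can (sti (dwn ps h.1)) bv (dn D L) r []).Tot ∧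
        (can (sti (dwn ps h.1)) bv (dn D L) r []).On
          (fun w => (∃ x, dwn ps h.1 x = w) ∧ Y w) := by
      intro L hL
      obtain ⟨-, -, d3, -, d5, -⟩ := pf_DNS W D L
      obtain ⟨c1, c2, c3, c4, -, -⟩ := hCAN W (Ce I Ch m) (sti (dwn ps h.1)) bv (dn D L) r D hsi d3
      refine ⟨c1, c3, c4.1 (hg1 L hL), ?_⟩
      refine on_and _ (on_mono (fun w hw => sti_ne hw) _ c2) ?_
      refine can_on _ _ _ ?_ r []
      exact d5 Y fun T hTL => on_mono (fun w hw => hw.2) T (hT' L hL T hTL).2.2.2
    have hrec := ih (r * D) (dwn ps h.1) h.2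
      (gmap (T := List (TR W)) (fun L => can (sti (dwn ps h.1)) bv (dn D L) r []) m G) hinj ?_ hg2
    · obtain ⟨r1, r2, r3, r4⟩ := hrec
      refine ⟨?_, r2, r3, ?_⟩
      · refine r1.trans (le_of_eq ?_)
        ring
      · intro O hO
        have e1 := r4 O (fun x hx => hO _ hx)
        refine e1.trans (congrArg some ?_)
        rw [gval_gmap]
        change _ = gval (fun L : List (TR W) => L.any fun t => !vt O t) m G
        refine gval_congr m _ _ _ G fun L hL => ?_
        -- the value of the canonical tree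
        obtain ⟨-, -, d3, -, d5, d6⟩ := pf_DNS W D L
        obtain ⟨-, c2, -, c4, c5, -⟩ :=
          hCAN W (Ce I Ch m) (sti (dwn ps h.1)) bv (dn D L) r D hsi d3
        set β : Ce I Ch m → Bool := fun x => O (dwn ps h.1 x) with hβ
        have hfv : ∀ w, (∃ x, ps x = w) → O w = fv (sti (dwn ps h.1)) bv β w := by
          rintro w ⟨x, rfl⟩
          unfold fv
          cases hs : sti (dwn ps h.1) (ps x) with
          | some y =>
            simp only [hβ]
            rw [sti_spec hs]
          | none =>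
            simp only
            refine hO x fun s hx => ?_
            exact sti_none hs ⟨s, adr m h.2 s⟩ hx.symm
        have hev : (can (sti (dwn ps h.1)) bv (dn D L) r []).eval O =
            run (sti (dwn ps h.1)) bv (dn D L) β r [] := by
          rw [← c5 β]
          refine eval_congr _ (on_mono ?_ _ (hc L hL).2.2.2)
          rintro w ⟨⟨x, rfl⟩, -⟩
          exact hfv _ ⟨_, rfl⟩
        obtain ⟨b, hb⟩ : ∃ b, run (sti (dwn ps h.1)) bv (dn D L) β r [] = some b := by
          cases hr : run (sti (dwn ps h.1)) bv (dn D L) β r [] with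
          | none => exact absurd ⟨β, hr⟩ (hg1 L hL)
          | some b => exact ⟨b, rfl⟩
        have hbs := hRNC W (Ce I Ch m) (sti (dwn ps h.1)) bv (dn D L) β r [] b
          (by intro s b' hh; simp at hh) hb
        have hsat : DNF.Sat O (dn D L) ↔ DNF.Sat (fv (sti (dwn ps h.1)) bv β) (dn D L) :=
          sat_congr fun T hTd p hp => hfv p.1 (d5 (fun w => ∃ x, ps x = w)
            (fun T hTL => on_mono (fun w hw => hw.1) T (hT' L hL T hTL).2.2.2) T hTd p hp)
        have hsat2 := d6 O fun T hTL => (hT' L hL T hTL).1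
        have hv : vt O (can (sti (dwn ps h.1)) bv (dn D L) r []) = b := by
          unfold vt
          rw [hev, hb]
          cases b <;> simp
        rw [hv, Bool.eq_iff_iff, hbs, ← hsat, hsat2, List.any_eq_true]
        constructor
        · rintro ⟨T, hTL, he⟩
          refine ⟨T, hTL, ?_⟩
          unfold vt
          rw [he]
          simp
        · rintro ⟨T, hTL, he⟩
          refine ⟨T, hTL, ?_⟩
          have h7 := tot_vt (hT' L hL T hTL).2.2.1 O
          rw [h7]
          have h8 : vt O T = false := by simpa using he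
          rw [h8]
    · intro T hTg
      rw [gbs_gmap] at hTg
      obtain ⟨L, hL, rfl⟩ := List.mem_map.1 hTg
      exact hc L hL

theorem pf_RDT (hCAN : T_CAN) (hRNC : Pool.Agent.H70.RC.T_RNC) : T_RDT :=
  fun I W Ch m D r bv ps h G Y => rdt hCAN hRNC I W Ch r bv Y m D ps h G

end Pool.Agent.H66.RK
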